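import Pool.Agent.Helper13.SXL.Sem
import Pool.Agent.Helper78.DT.Av

/-!
# Reading a CNF: the probability that it takes many steps
-/

set_option autoImplicit false

namespace Pool.Agent.Helper13.SXL

open Pool.Agent.Helper81.CC Pool.Agent.Helper78.JT Pool.Agent.Helper78.DT
open scoped Classical

/-- `a j = ∑_{i=1}^j (l/2)^i`. -/
noncomputable def aa (l : ℝ) : ℕ → ℝ
  | 0 => 0
  | j + 1 => l / 2 * (1 + aa l j)

theorem aa_nonneg {l : ℝ} (hl : 1 ≤ l) (j : ℕ) : 0 ≤ aa l j := by
  induction j with
  | zero => exact le_refl _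
  | succ j ih =>
    rw [aa]
    positivity

theorem aa_succ {l : ℝ} (hl : 1 ≤ l) (j : ℕ) : aa l j ≤ aa l (j + 1) := by
  induction j with
  | zero =>
    have h0 : aa l 0 = 0 := rfl
    have h1 : aa l (0 + 1) = l / 2 * (1 + aa l 0) := rfl
    rw [h1, h0]
    linarith
  | succ j ih =>
    have h1 : aa l (j + 1 + 1) = l / 2 * (1 + aa l (j + 1)) := rfl
    have h2 : aa l (j + 1) = l / 2 * (1 + aa l j) := rfl
    rw [h1]
    have : 0 ≤ l / 2 := by linarith
    nlinarith

theorem aa_mono {l : ℝ} (hl : 1 ≤ l) {i j : ℕ} (h : i ≤ j) : aa l i ≤ aa l j :=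
  monotone_nat_of_le_succ (aa_succ hl) h

theorem aa_three {l : ℝ} (hl : 1 ≤ l) (hl2 : l ≤ 3 / 2) (j : ℕ) : aa l j ≤ 3 := by
  induction j with
  | zero => rw [aa]; norm_num
  | succ j ih =>
    rw [aa]
    nlinarith

theorem coin_update {n : ℕ} (r : Fin n → Bool) (v : Fin n) (c : Bool) (w : ℕ) (h : w ≠ v) :
    coin (Function.update r v c) w = coin r w := by
  unfold coin
  split_ifs with h1
  · rw [Function.update_of_ne]
    intro h2
    apply h
    rw [← h2]
  · rfl

theorem stp_mono {n : ℕ} (T : List Clause) (r : Fin n → Bool) (σ : Asn) (p : ℕ × Bool)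
    (h : p ∈ σ) : p ∈ stp T r σ := by
  unfold stp nx
  split_ifs
  · exact List.mem_cons_of_mem _ h
  · exact h

theorem adv_ind {n : ℕ} (T : List Clause) (r : Fin n → Bool) (v : Fin n) (c b : Bool) (D : ℕ) :
    ∀ σ : Asn, ((v : ℕ), b) ∈ σ →
      (stp T (Function.update r v c))^[D] σ = (stp T r)^[D] σ := by
  induction D with
  | zero => intro σ _; rfl
  | succ D ih =>
    intro σ h
    rw [Function.iterate_succ_apply, Function.iterate_succ_apply]
    have h1 : stp T (Function.update r v c) σ = stp T r σ := by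
      unfold stp nx
      split_ifs with h2
      · rw [coin_update]
        intro h3
        have h4 := (ask_un h2).2 b
        rw [h3] at h4
        exact h4 h
      · rfl
    rw [h1]
    exact ih _ (stp_mono T r σ _ h)

theorem pr_split {n : ℕ} (v : Fin n) (φ : Bool → (Fin n → Bool) → Prop)
    (h : ∀ b r c, φ b (Function.update r v c) ↔ φ b r) :
    pr (fun r => φ (r v) r) = (pr (φ true) + pr (φ false)) / 2 := by
  set e : (Fin n → Bool) ≃ (Fin n → Bool) :=
    { toFun := fun r => Function.update r v (!r v)
      invFun := fun r => Function.update r v (!r v)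
      left_inv := fun r => by simp
      right_inv := fun r => by simp } with he
  have h1 : pr (fun r => φ (r v) r) = pr (fun r => φ (!r v) r) := by
    rw [← pr_equiv e (fun r => φ (r v) r)]
    refine pr_congr fun r => ?_
    have h2 : (e r) v = !r v := by simp [he]
    rw [h2]
    exact h _ r _
  have h3 : pr (fun r => φ (r v) r) + pr (fun r => φ (!r v) r) = pr (φ true) + pr (φ false) := by
    unfold pr
    rw [← av_add, ← av_add]
    refine av_congr fun r => ?_
    rcases hb : r v with _ | _
    · simp only [hb, Bool.not_false]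
      rw [add_comm]
    · simp only [hb, Bool.not_true]
  linarith

/-- The number of the wide clauses in a list. -/
def wd (k : ℕ) (P : List Clause) : ℕ := (P.filter fun C => decide (k < C.length)).length

/-- The potential. -/
noncomputable def pot (n k : ℕ) (l : ℝ) (T : List Clause) (σ : Asn) : ℝ :=
  match T.filter (fun C => !ok n σ C) with
  | [] => 1
  | C :: P => 2 * aa l (C.filter (un n σ)).length * 3 ^ wd k P

theorem wd_sublist (k : ℕ) {P Q : List Clause} (h : P.Sublist Q) : wd k P ≤ wd k Q :=
  (h.filter _).length_le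

theorem pot_le {n k : ℕ} {l : ℝ} (hl : 1 ≤ l) (hl2 : l ≤ 3 / 2) (hk : aa l k ≤ 1)
    (T : List Clause) (σ : Asn) :
    pot n k l T σ ≤ 2 * 3 ^ wd k (T.filter (fun C => !ok n σ C)) := by
  unfold pot
  rcases T.filter (fun C => !ok n σ C) with _ | ⟨C, P⟩
  · simp [wd]
  · simp only
    have h0 : (0 : ℝ) < 3 ^ wd k P := by positivity
    by_cases h : k < C.length
    · have h1 : wd k (C :: P) = wd k P + 1 := by
        unfold wd
        rw [List.filter_cons_of_pos (by simpa using h), List.length_cons]
      rw [h1, pow_succ]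
      have := aa_three hl hl2 (C.filter (un n σ)).length
      nlinarith
    · have h1 : wd k (C :: P) = wd k P := by
        unfold wd
        rw [List.filter_cons_of_neg (by simpa using h)]
      rw [h1]
      have h2 : (C.filter (un n σ)).length ≤ k := (List.length_filter_le _ _).trans (by omega)
      have := (aa_mono hl h2).trans hk
      nlinarith

theorem lt_cons {n : ℕ} {σ : Asn} {p q : ℕ × Bool} (h : lt n σ p = true) :
    lt n (q :: σ) p = true := by
  unfold lt at *
  rw [Bool.or_eq_true, decide_eq_true_iff] at *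
  rcases h with h | h
  · exact Or.inl (List.mem_cons_of_mem _ h)
  · exact Or.inr h

theorem ok_cons {n : ℕ} {σ : Asn} {C : Clause} {q : ℕ × Bool} (h : ok n σ C = true) :
    ok n (q :: σ) C = true := by
  unfold ok at *
  rw [Bool.or_eq_true, List.any_eq_true] at *
  rcases h with h | ⟨p, hp, h⟩
  · exact Or.inl h
  · exact Or.inr ⟨p, hp, lt_cons h⟩

theorem un_cons {n : ℕ} {σ : Asn} {p q : ℕ × Bool} (h : un n (q :: σ) p = true) :
    un n σ p = true := by
  rw [un_iff] at *
  exact ⟨h.1, fun h1 => h.2.1 (List.mem_cons_of_mem _ h1),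
    fun h1 => h.2.2 (List.mem_cons_of_mem _ h1)⟩

theorem filter_ok_cons (n : ℕ) (T : List Clause) (σ : Asn) (q : ℕ × Bool) :
    T.filter (fun C => !ok n (q :: σ) C) =
      (T.filter (fun C => !ok n σ C)).filter (fun C => !ok n (q :: σ) C) := by
  rw [List.filter_filter]
  refine List.filter_congr fun C _ => ?_
  by_cases h : ok n σ C = true
  · rw [ok_cons h, h]; rfl
  · have : ok n σ C = false := by simpa using h
    rw [this]
    simp

theorem step_true {n k : ℕ} {l : ℝ} (hl : 1 ≤ l) (hl2 : l ≤ 3 / 2) (hk : aa l k ≤ 1)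
    {T : List Clause} {σ : Asn} {C : Clause} {P : List Clause}
    (hP : T.filter (fun C => !ok n σ C) = C :: P) {p : ℕ × Bool} (hp : p ∈ C) :
    pot n k l T (p :: σ) ≤ 2 * 3 ^ wd k P := by
  refine (pot_le hl hl2 hk T (p :: σ)).trans ?_
  have h1 : (T.filter (fun C => !ok n (p :: σ) C)).Sublist P := by
    rw [filter_ok_cons, hP, List.filter_cons_of_neg]
    · exact List.filter_sublist
    · have : ok n (p :: σ) C = true := by
        unfold ok
        rw [Bool.or_eq_true]
        right
        rw [List.any_eq_true]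
        refine ⟨p, hp, ?_⟩
        unfold lt
        simp
      simp [this]
  have h2 : (3 : ℝ) ^ wd k (T.filter (fun C => !ok n (p :: σ) C)) ≤ 3 ^ wd k P :=
    pow_le_pow_right₀ (by norm_num) (wd_sublist k h1)
  linarith

theorem step_false {n k : ℕ} {l : ℝ} (hl : 1 ≤ l)
    {T : List Clause} {σ : Asn} {C : Clause} {P : List Clause}
    (hP : T.filter (fun C => !ok n σ C) = C :: P) {p : ℕ × Bool} (hp : p ∈ C)
    (hu : un n σ p = true) :
    pot n k l T ((p.1, !p.2) :: σ) ≤
      2 * aa l ((C.filter (un n σ)).length - 1) * 3 ^ wd k P := by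
  have hC : ok n σ C = false := by
    have h1 : C ∈ T.filter (fun C => !ok n σ C) := by rw [hP]; exact List.mem_cons_self ..
    rw [List.mem_filter] at h1
    simpa using h1.2
  have hC' : ok n ((p.1, !p.2) :: σ) C = false := by
    unfold ok at *
    rw [Bool.or_eq_false_iff] at *
    refine ⟨hC.1, ?_⟩
    rw [List.any_eq_false] at *
    intro q hq h
    unfold lt at h
    rw [Bool.or_eq_true, decide_eq_true_iff, List.mem_cons] at h
    rcases h with (h | h) | h
    · have h2 := hC.1
      unfold op at h2
      rw [List.any_eq_false] at h2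
      apply h2 p hp
      rw [decide_eq_true_iff, ← h]
      exact hq
    · apply hC.2 q hq
      unfold lt
      simp [h]
    · apply hC.2 q hq
      unfold lt
      rw [h]
      simp
  unfold pot
  rw [filter_ok_cons, hP, List.filter_cons_of_pos (by simp [hC'])]
  simp only
  have h1 : (C.filter (un n ((p.1, !p.2) :: σ))).length ≤ (C.filter (un n σ)).length - 1 := by
    have h2 : (C.filter (un n ((p.1, !p.2) :: σ))).length < (C.filter (un n σ)).length := by
      have h3 : C.filter (un n ((p.1, !p.2) :: σ)) =
          (C.filter (un n σ)).filter (un n ((p.1, !p.2) :: σ)) := by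
        rw [List.filter_filter]
        refine List.filter_congr fun q _ => ?_
        by_cases h4 : un n ((p.1, !p.2) :: σ) q = true
        · rw [h4, un_cons h4]; rfl
        · have : un n ((p.1, !p.2) :: σ) q = false := by simpa using h4
          rw [this]; rfl
      rw [h3]
      refine List.length_filter_lt_length_iff_exists.2 ⟨p, ?_, ?_⟩
      · rw [List.mem_filter]
        exact ⟨hp, hu⟩
      · rw [un_iff]
        intro h4
        cases h5 : p.2
        · apply h4.2.1
          rw [h5]
          simp
        · apply h4.2.2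
          rw [h5]
          simp
    omega
  have h2 := aa_mono hl h1
  have h3 : (3 : ℝ) ^ wd k (P.filter fun C => !ok n ((p.1, !p.2) :: σ) C) ≤ 3 ^ wd k P :=
    pow_le_pow_right₀ (by norm_num) (wd_sublist k List.filter_sublist)
  have h4 := aa_nonneg hl ((C.filter (un n ((p.1, !p.2) :: σ))).length)
  have h5 : (0 : ℝ) < 3 ^ wd k P := by positivity
  have h6 : (0 : ℝ) ≤ 3 ^ wd k (P.filter fun C => !ok n ((p.1, !p.2) :: σ) C) := by positivity
  calc 2 * aa l (C.filter (un n ((p.1, !p.2) :: σ))).length *
        3 ^ wd k (P.filter fun C => !ok n ((p.1, !p.2) :: σ) C)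
      ≤ 2 * aa l (C.filter (un n ((p.1, !p.2) :: σ))).length * 3 ^ wd k P := by
        refine mul_le_mul_of_nonneg_left h3 (by linarith)
    _ ≤ _ := by
        refine mul_le_mul_of_nonneg_right (by linarith) h5.le

theorem pr_false {Ω : Type} [Fintype Ω] [Nonempty Ω] (E : Ω → Prop) (h : ∀ w, ¬ E w) :
    pr E = 0 := by
  have h1 : pr E = av fun _ : Ω => (0 : ℝ) := by
    unfold pr
    exact av_congr fun w => if_neg (h w)
  rw [h1]
  exact av_const 0

theorem exh_bound {n k : ℕ} {l : ℝ} (hl : 1 ≤ l) (hl2 : l ≤ 3 / 2) (hk : aa l k ≤ 1)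
    (T : List Clause) (D : ℕ) : ∀ σ : Asn,
    l ^ D * pr (fun r : Fin n → Bool => 2 ≤ ask n T ((stp T r)^[D] σ)) ≤ pot n k l T σ := by
  have hpot0 : ∀ σ, 0 ≤ pot n k l T σ := by
    intro σ
    unfold pot
    rcases T.filter (fun C => !ok n σ C) with _ | ⟨C, P⟩
    · simp
    · simp only
      have := aa_nonneg hl (C.filter (un n σ)).length
      positivity
  induction D with
  | zero =>
    intro σ
    rw [pow_zero, one_mul]
    simp only [Function.iterate_zero, id]
    by_cases h : 2 ≤ ask n T σ
    · have h1 := pr_le_one (fun _ : Fin n → Bool => 2 ≤ ask n T σ)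
      refine h1.trans ?_
      rcases ask_cases n T σ with ⟨h2, _⟩ | ⟨C, P, hP, ⟨h2, _⟩ | ⟨p, hp, hu, h2⟩⟩
      · omega
      · omega
      · unfold pot
        rw [hP]
        simp only
        have h3 : 1 ≤ (C.filter (un n σ)).length :=
          List.length_pos_of_mem (List.mem_filter.2 ⟨hp, hu⟩)
        have h4 := aa_mono hl h3
        have h5 : aa l 1 = l / 2 := by rw [aa, aa]; ring
        have h6 : (1 : ℝ) ≤ 3 ^ wd k P := one_le_pow₀ (by norm_num)
        rw [h5] at h4
        nlinarith
    · have h1 : pr (fun _ : Fin n → Bool => 2 ≤ ask n T σ) = 0 := pr_false _ fun _ => h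
      rw [h1]
      exact hpot0 σ
  | succ D ih =>
    intro σ
    by_cases h : 2 ≤ ask n T σ
    · rcases ask_cases n T σ with ⟨h2, _⟩ | ⟨C, P, hP, ⟨h2, _⟩ | ⟨p, hp, hu, h2⟩⟩
      · omega
      · omega
      · have hv : p.1 < n := (un_iff n σ p).1 hu |>.1
        have hstep : ∀ r : Fin n → Bool, (stp T r)^[D + 1] σ =
            (stp T r)^[D] ((p.1, r ⟨p.1, hv⟩) :: σ) := by
          intro r
          rw [Function.iterate_succ_apply]
          congr 1
          unfold stp nx
          rw [if_pos h, h2, Nat.add_sub_cancel]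
          unfold coin
          rw [dif_pos hv]
        have hsp := pr_split (⟨p.1, hv⟩ : Fin n)
          (fun b r => 2 ≤ ask n T ((stp T r)^[D] ((p.1, b) :: σ))) (by
            intro b r c
            rw [adv_ind T r ⟨p.1, hv⟩ c b D ((p.1, b) :: σ) (List.mem_cons_self ..)])
        have h3 : pr (fun r : Fin n → Bool => 2 ≤ ask n T ((stp T r)^[D + 1] σ)) =
            (pr (fun r : Fin n → Bool => 2 ≤ ask n T ((stp T r)^[D] ((p.1, true) :: σ))) +
              pr (fun r : Fin n → Bool => 2 ≤ ask n T ((stp T r)^[D] ((p.1, false) :: σ)))) / 2 := by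
          rw [← hsp]
          exact pr_congr fun r => by rw [hstep r]
        have h4 : pr (fun r : Fin n → Bool => 2 ≤ ask n T ((stp T r)^[D + 1] σ)) =
            (pr (fun r : Fin n → Bool => 2 ≤ ask n T ((stp T r)^[D] (p :: σ))) +
              pr (fun r : Fin n → Bool => 2 ≤ ask n T ((stp T r)^[D] ((p.1, !p.2) :: σ)))) / 2 := by
          rw [h3]
          obtain ⟨v, b⟩ := p
          cases b
          · simp only [Bool.not_false]
            ring
          · simp only [Bool.not_true]
        have h5 := (ih (p :: σ)).trans (step_true hl hl2 hk hP hp)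
        have h6 := (ih ((p.1, !p.2) :: σ)).trans (step_false hl hP hp hu)
        rw [h4]
        have h7 : pot n k l T σ = 2 * aa l (C.filter (un n σ)).length * 3 ^ wd k P := by
          unfold pot
          rw [hP]
        have h8 : 1 ≤ (C.filter (un n σ)).length :=
          List.length_pos_of_mem (List.mem_filter.2 ⟨hp, hu⟩)
        have h9 : aa l (C.filter (un n σ)).length =
            l / 2 * (1 + aa l ((C.filter (un n σ)).length - 1)) := by
          obtain ⟨j, hj⟩ : ∃ j, (C.filter (un n σ)).length = j + 1 :=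
            ⟨(C.filter (un n σ)).length - 1, by omega⟩
          rw [hj, aa, Nat.add_sub_cancel]
        rw [h7, h9, pow_succ]
        have h10 : (0 : ℝ) ≤ l / 2 := by linarith
        calc l ^ D * l * ((pr (fun r : Fin n → Bool => 2 ≤ ask n T ((stp T r)^[D] (p :: σ))) +
              pr (fun r : Fin n → Bool =>
                2 ≤ ask n T ((stp T r)^[D] ((p.1, !p.2) :: σ)))) / 2)
            = l / 2 * (l ^ D * pr (fun r : Fin n → Bool =>
                2 ≤ ask n T ((stp T r)^[D] (p :: σ))) + l ^ D * pr (fun r : Fin n → Bool =>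
                2 ≤ ask n T ((stp T r)^[D] ((p.1, !p.2) :: σ)))) := by ring
          _ ≤ l / 2 * (2 * 3 ^ wd k P +
                2 * aa l ((C.filter (un n σ)).length - 1) * 3 ^ wd k P) :=
              mul_le_mul_of_nonneg_left (add_le_add h5 h6) h10
          _ = _ := by ring
    · have h1 : ∀ r : Fin n → Bool, (stp T r)^[D + 1] σ = σ := by
        intro r
        have h2 : stp T r σ = σ := by
          unfold stp nx
          rw [if_neg h]
        exact Function.iterate_fixed h2 _
      have h2 : pr (fun r : Fin n → Bool => 2 ≤ ask n T ((stp T r)^[D + 1] σ)) = 0 :=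
        pr_false _ fun r => by rw [h1 r]; exact h
      rw [h2, mul_zero]
      exact hpot0 σ

/-- The probability that the reading of the CNF takes more than `D` steps. -/
theorem exh_pr {n k : ℕ} {l : ℝ} (hl : 1 ≤ l) (hl2 : l ≤ 3 / 2) (hk : aa l k ≤ 1)
    (T : List Clause) (D : ℕ) :
    l ^ D * pr (fun r : Fin n → Bool => Exh T D r) ≤ 2 * 3 ^ wd k T := by
  refine (exh_bound hl hl2 hk T D []).trans ((pot_le hl hl2 hk T []).trans ?_)
  have h2 : (3 : ℝ) ^ wd k (T.filter (fun C => !ok n [] C)) ≤ 3 ^ wd k T :=
    pow_le_pow_right₀ (by norm_num) (wd_sublist k List.filter_sublist)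
  linarith

end Pool.Agent.Helper13.SXL
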