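import Pool.Agent.Helper65.CS.Goals3
import Pool.Agent.Helper78.JT.Defs

/-!
# Search for satisfying assignments of decision lists of narrow CNFs

The search form of the counting theorem for decision lists whose tests are CNFs
(`Pool.Agent.Helper78.JT.Defs`), by the search for accepting coins of randomized machines in stages
without memory (`Pool.Agent.Helper65.CS.FindsCoins`): stage `i` reads the `i`th CNF.
-/

set_option autoImplicit false

namespace Pool.Agent.Helper13.SXL

open Pool.Agent.Helper81.CC Pool.Agent.Helper78.JT

/-- The size of a decision list of CNFs in `n` variables: `n`, plus the number of the tests, of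
their clauses, and of the literals. -/
def csz (z : ℕ × CList) : ℕ := z.1 + lsize z.2

/-- Each CNF in the list has at most `k (log₂ N + 1)` clauses with more than `k` literals, where
`N` is the size. -/
def NarrowL (k : ℕ) (z : ℕ × CList) : Prop := ∀ e ∈ z.2,
  (e.1.filter fun C => decide (k < C.length)).length ≤ k * (Nat.log 2 (csz z) + 1)

/-- Search for decision lists of narrow CNFs: there is a deterministic polynomial-time function `f`
which, for each decision list `F` of CNFs in `n` variables, all of whose CNFs have at most
`k (log₂ N + 1)` clauses with more than `k` literals, and which has the value `true` for at least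
`2 ^ n / (log₂ N + 2) ^ c` assignments, where `N` is the size of `(n, F)`, gives one of these
assignments (as the list of its `n` bits). -/
def FindsNarrow (c k : ℕ) : Prop :=
  ∃ f : ℕ × CList → List Bool,
    PolyTimeComputable (encOf (ℕ × CList)) (encOf (List Bool)) f ∧ ∀ n F,
      NarrowL k (n, F) →
      2 ^ n ≤ (Nat.log 2 (csz (n, F)) + 2) ^ c *
        Nat.card {r : Fin n → Bool // val r F = true} →
      ∃ r : Fin n → Bool, val r F = true ∧ f (n, F) = List.ofFn r

/-! ### Reading a CNF, literal by literal -/

/-- The values which have been read. -/
abbrev Asn := List (ℕ × Bool)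

/-- The literal `p` is known to be true. -/
def lt (n : ℕ) (σ : Asn) (p : ℕ × Bool) : Bool := decide (p ∈ σ) || (decide (n ≤ p.1) && !p.2)

/-- The variable of the literal `p` has not been read. -/
def un (n : ℕ) (σ : Asn) (p : ℕ × Bool) : Bool :=
  decide (p.1 < n) && (!decide ((p.1, true) ∈ σ) && !decide ((p.1, false) ∈ σ))

/-- The clause contains two opposite literals. -/
def op (C : Clause) : Bool := C.any fun p => decide ((p.1, !p.2) ∈ C)

/-- The clause is known to be true. -/
def ok (n : ℕ) (σ : Asn) (C : Clause) : Bool := op C || C.any (lt n σ)

/-- The result of the CNF (`0` for false, `1` for true), or the next variable `v` to be read, as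
`v + 2`: the first unread variable in the first clause which is not known to be true. -/
def ask (n : ℕ) (T : List Clause) (σ : Asn) : ℕ :=
  match T.find? (fun C => !ok n σ C) with
  | none => 1
  | some C => match C.find? (un n σ) with
    | none => 0
    | some p => p.1 + 2

/-- One step: the next variable gets the value `b`. -/
def nx (n : ℕ) (T : List Clause) (σ : Asn) (b : Bool) : Asn :=
  if 2 ≤ ask n T σ then (ask n T σ - 2, b) :: σ else σ

/-- The values which have been read, from the list of the answers. -/
def run (n : ℕ) (T : List Clause) (a : List Bool) : Asn := a.foldl (nx n T) []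

/-- One step with the values of the assignment `r`. -/
def stp {n : ℕ} (T : List Clause) (r : Fin n → Bool) (σ : Asn) : Asn :=
  nx n T σ (coin r (ask n T σ - 2))

/-- After `D` steps the result of the CNF is not known. -/
def Exh {n : ℕ} (T : List Clause) (D : ℕ) (r : Fin n → Bool) : Prop :=
  2 ≤ ask n T ((stp T r)^[D] [])

end Pool.Agent.Helper13.SXL
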