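import Pool.Agent.Helper13.SXL.Prob

/-!
# The parameters
-/

set_option autoImplicit false

namespace Pool.Agent.Helper13.SXL

open Filter Topology

theorem aa_one (k : ℕ) : aa 1 k < 1 := by
  induction k with
  | zero => rw [aa]; norm_num
  | succ k ih => rw [aa]; linarith

theorem aa_cont (k : ℕ) : Continuous fun l : ℝ => aa l k := by
  induction k with
  | zero => exact continuous_const
  | succ k ih =>
    have : (fun l : ℝ => aa l (k + 1)) = fun l => l / 2 * (1 + aa l k) := rfl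
    rw [this]
    exact (continuous_id.div_const 2).mul (continuous_const.add ih)

theorem exists_l (k : ℕ) : ∃ l : ℝ, 1 < l ∧ l ≤ 3 / 2 ∧ aa l k ≤ 1 := by
  have h1 : ∀ᶠ l in 𝓝 (1 : ℝ), aa l k < 1 :=
    ((aa_cont k).tendsto 1).eventually (Iio_mem_nhds (aa_one k))
  have h2 : ∀ᶠ l in 𝓝[>] (1 : ℝ), aa l k < 1 := h1.filter_mono nhdsWithin_le_nhds
  have h3 : ∀ᶠ l in 𝓝[>] (1 : ℝ), l ∈ Set.Ioo (1 : ℝ) (3 / 2) :=
    Ioo_mem_nhdsGT (by norm_num)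
  obtain ⟨l, hl, hl2⟩ := (h2.and h3).exists
  exact ⟨l, hl2.1, hl2.2.le, hl.le⟩

theorem params (c k : ℕ) : ∃ (l : ℝ) (C : ℕ), 1 ≤ l ∧ l ≤ 3 / 2 ∧ aa l k ≤ 1 ∧
    ∀ N L M : ℕ, N ≤ 2 ^ L → 2 ≤ L → M ≤ k * L →
      (N : ℝ) * (2 * 3 ^ M) / l ^ (C * L) ≤ 1 / (2 * (L : ℝ) ^ c) := by
  obtain ⟨l, hl, hl2, hk⟩ := exists_l k
  obtain ⟨C, hC⟩ := pow_unbounded_of_one_lt ((2 : ℝ) ^ (2 * k + c + 3)) hl
  refine ⟨l, C, hl.le, hl2, hk, ?_⟩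
  intro N L M hN hL hM
  have hl0 : (0 : ℝ) < l := by linarith
  have h1 : ((2 : ℝ) ^ (2 * k + c + 3)) ^ L ≤ l ^ (C * L) := by
    rw [pow_mul]
    exact pow_le_pow_left₀ (by positivity) hC.le L
  have h2 : (N : ℝ) ≤ 2 ^ L := by exact_mod_cast hN
  have h3 : (3 : ℝ) ^ M ≤ 2 ^ (2 * k * L) := by
    calc (3 : ℝ) ^ M ≤ 4 ^ M := pow_le_pow_left₀ (by norm_num) (by norm_num) M
      _ ≤ 4 ^ (k * L) := pow_le_pow_right₀ (by norm_num) hM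
      _ = 2 ^ (2 * k * L) := by
        rw [show (4 : ℝ) = 2 ^ 2 by norm_num, ← pow_mul]
        congr 1
        ring
  have hLpos : (0 : ℝ) < L := by
    have : 0 < L := by omega
    exact_mod_cast this
  have h4 : (L : ℝ) ^ c ≤ 2 ^ (c * L) := by
    have : (L : ℝ) ≤ 2 ^ L := by exact_mod_cast (Nat.lt_two_pow_self).le
    calc (L : ℝ) ^ c ≤ (2 ^ L) ^ c := pow_le_pow_left₀ hLpos.le this c
      _ = _ := by rw [← pow_mul, mul_comm]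
  have h5 : (4 : ℝ) ≤ 2 ^ (2 * L) := by
    calc (4 : ℝ) = 2 ^ 2 := by norm_num
      _ ≤ 2 ^ (2 * L) := pow_le_pow_right₀ (by norm_num) (by omega)
  have h6 : ((2 : ℝ) ^ (2 * k + c + 3)) ^ L = 2 ^ L * 2 ^ (2 * k * L) * 2 ^ (c * L) * 2 ^ (2 * L) := by
    rw [← pow_mul, ← pow_add, ← pow_add, ← pow_add]
    congr 1
    ring
  rw [div_le_div_iff₀ (by positivity) (by positivity), one_mul]
  calc (N : ℝ) * (2 * 3 ^ M) * (2 * (L : ℝ) ^ c)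
      ≤ 2 ^ L * (2 * 2 ^ (2 * k * L)) * (2 * 2 ^ (c * L)) := by gcongr
    _ = 2 ^ L * 2 ^ (2 * k * L) * 2 ^ (c * L) * 4 := by ring
    _ ≤ 2 ^ L * 2 ^ (2 * k * L) * 2 ^ (c * L) * 2 ^ (2 * L) :=
        mul_le_mul_of_nonneg_left h5 (by positivity)
    _ = ((2 : ℝ) ^ (2 * k + c + 3)) ^ L := h6.symm
    _ ≤ _ := h1

end Pool.Agent.Helper13.SXL
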