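import Pool.Agent.Helper13.SXL.Defs

/-!
# Reading a CNF: soundness
-/

set_option autoImplicit false

namespace Pool.Agent.Helper13.SXL

open Pool.Agent.Helper81.CC Pool.Agent.Helper78.JT

/-- The values in `σ` are those of `r`. -/
def Good {n : ℕ} (r : Fin n → Bool) (σ : Asn) : Prop := ∀ p ∈ σ, p.1 < n ∧ coin r p.1 = p.2

theorem coin_ge {n : ℕ} (r : Fin n → Bool) {v : ℕ} (h : n ≤ v) : coin r v = false := by
  unfold coin
  rw [dif_neg (by omega)]

theorem lt_coin {n : ℕ} {r : Fin n → Bool} {σ : Asn} (hg : Good r σ) {p : ℕ × Bool}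
    (h : lt n σ p = true) : coin r p.1 = p.2 := by
  unfold lt at h
  rw [Bool.or_eq_true, decide_eq_true_iff, Bool.and_eq_true, decide_eq_true_iff] at h
  rcases h with h | ⟨h1, h2⟩
  · exact (hg p h).2
  · rw [coin_ge r h1]
    revert h2
    cases p.2 <;> simp

theorem ok_true {n : ℕ} {r : Fin n → Bool} {σ : Asn} (hg : Good r σ) {C : Clause}
    (h : ok n σ C = true) : ∃ p ∈ C, coin r p.1 = p.2 := by
  unfold ok op at h
  rw [Bool.or_eq_true, List.any_eq_true, List.any_eq_true] at h
  rcases h with ⟨p, hp, hq⟩ | ⟨p, hp, hq⟩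
  · rw [decide_eq_true_iff] at hq
    by_cases hc : coin r p.1 = p.2
    · exact ⟨p, hp, hc⟩
    · refine ⟨(p.1, !p.2), hq, ?_⟩
      revert hc
      cases coin r p.1 <;> cases p.2 <;> simp
  · exact ⟨p, hp, lt_coin hg hq⟩

theorem ask_cases (n : ℕ) (T : List Clause) (σ : Asn) :
    (ask n T σ = 1 ∧ ∀ C ∈ T, ok n σ C = true) ∨
    (∃ C P, T.filter (fun C => !ok n σ C) = C :: P ∧
      ((ask n T σ = 0 ∧ ∀ p ∈ C, un n σ p = false) ∨
        ∃ p ∈ C, un n σ p = true ∧ ask n T σ = p.1 + 2)) := by
  unfold ask
  rw [← List.head?_filter]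
  rcases h : T.filter (fun C => !ok n σ C) with _ | ⟨C, P⟩
  · left
    refine ⟨rfl, ?_⟩
    intro C hC
    by_contra h1
    have h2 : C ∈ T.filter (fun C => !ok n σ C) := by
      rw [List.mem_filter]
      exact ⟨hC, by simpa using h1⟩
    rw [h] at h2
    exact absurd h2 (by simp)
  · right
    refine ⟨C, P, rfl, ?_⟩
    rw [List.head?_cons]
    rcases h1 : C.find? (un n σ) with _ | p
    · left
      refine ⟨by simp [h1], ?_⟩
      intro p hp
      have h2 := List.find?_eq_none.1 h1 p hp
      simpa using h2
    · right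
      exact ⟨p, List.mem_of_find?_eq_some h1, List.find?_some h1, by simp [h1]⟩

theorem un_iff (n : ℕ) (σ : Asn) (p : ℕ × Bool) :
    un n σ p = true ↔ p.1 < n ∧ (p.1, true) ∉ σ ∧ (p.1, false) ∉ σ := by
  unfold un
  simp

theorem ask_un {n : ℕ} {T : List Clause} {σ : Asn} (h : 2 ≤ ask n T σ) :
    ask n T σ - 2 < n ∧ ∀ b, (ask n T σ - 2, b) ∉ σ := by
  rcases ask_cases n T σ with ⟨h1, _⟩ | ⟨C, P, _, ⟨h1, _⟩ | ⟨p, _, hp, h1⟩⟩
  · omega
  · omega
  · rw [h1, Nat.add_sub_cancel]
    rw [un_iff] at hp
    refine ⟨hp.1, ?_⟩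
    intro b
    cases b
    · exact hp.2.2
    · exact hp.2.1

theorem sem1 {n : ℕ} {r : Fin n → Bool} {T : List Clause} {σ : Asn} (hg : Good r σ)
    (h : ask n T σ = 1) : Holds r T := by
  rcases ask_cases n T σ with ⟨_, h2⟩ | ⟨C, P, _, ⟨h1, _⟩ | ⟨p, _, hp, h1⟩⟩
  · exact fun C hC => ok_true hg (h2 C hC)
  · omega
  · omega

theorem sem0 {n : ℕ} {r : Fin n → Bool} {T : List Clause} {σ : Asn} (hg : Good r σ)
    (h : ask n T σ = 0) : ¬ Holds r T := by
  rcases ask_cases n T σ with ⟨h1, _⟩ | ⟨C, P, hC, ⟨h1, h2⟩ | ⟨p, _, hp, h1⟩⟩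
  · omega
  · intro hH
    have hC1 : C ∈ T.filter (fun C => !ok n σ C) := by rw [hC]; exact List.mem_cons_self ..
    rw [List.mem_filter] at hC1
    obtain ⟨p, hp, hq⟩ := hH C hC1.1
    have h3 := h2 p hp
    have h4 : ¬ un n σ p = true := by rw [h3]; simp
    have h5 : lt n σ p = true := by
      rw [un_iff] at h4
      unfold lt
      by_cases h6 : p.1 < n
      · have h7 : (p.1, true) ∈ σ ∨ (p.1, false) ∈ σ := by
          by_contra h8
          rw [not_or] at h8
          exact h4 ⟨h6, h8.1, h8.2⟩
        have h9 : p ∈ σ := by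
          rcases h7 with h7 | h7
          · have h8 := (hg _ h7).2
            have h10 : p.2 = true := by rw [← hq]; exact h8
            have : p = (p.1, true) := Prod.ext rfl h10
            rw [this]; exact h7
          · have h8 := (hg _ h7).2
            have h10 : p.2 = false := by rw [← hq]; exact h8
            have : p = (p.1, false) := Prod.ext rfl h10
            rw [this]; exact h7
        simp [h9]
      · have h7 := coin_ge r (v := p.1) (by omega)
        have h10 : p.2 = false := by rw [← hq]; exact h7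
        simp [h10, show n ≤ p.1 by omega]
    have h6 : ok n σ C = true := by
      unfold ok
      rw [Bool.or_eq_true]
      right
      rw [List.any_eq_true]
      exact ⟨p, hp, h5⟩
    rw [h6] at hC1
    simp at hC1
  · omega

theorem nx_good {n : ℕ} {r : Fin n → Bool} {T : List Clause} {σ : Asn} (hg : Good r σ) {b : Bool}
    (hb : 2 ≤ ask n T σ → b = coin r (ask n T σ - 2)) : Good r (nx n T σ b) := by
  unfold nx
  split_ifs with h
  · intro p hp
    rw [List.mem_cons] at hp
    rcases hp with rfl | hp
    · exact ⟨(ask_un h).1, (hb h).symm⟩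
    · exact hg p hp
  · exact hg

theorem run_append (n : ℕ) (T : List Clause) (a : List Bool) (b : Bool) :
    run n T (a ++ [b]) = nx n T (run n T a) b := by
  unfold run
  rw [List.foldl_append]
  rfl

/-- The answers of the first `j` steps. -/
def an {n : ℕ} (T : List Clause) (r : Fin n → Bool) : ℕ → List Bool
  | 0 => []
  | j + 1 => an T r j ++ [coin r (ask n T (run n T (an T r j)) - 2)]

theorem an_length {n : ℕ} (T : List Clause) (r : Fin n → Bool) (j : ℕ) :
    (an T r j).length = j := by
  induction j with
  | zero => rfl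
  | succ j ih => rw [an, List.length_append, ih]; rfl

theorem an_take {n : ℕ} (T : List Clause) (r : Fin n → Bool) (i j : ℕ) (h : i ≤ j) :
    (an T r j).take i = an T r i := by
  induction j with
  | zero =>
    have : i = 0 := by omega
    subst this
    rfl
  | succ j ih =>
    rcases Nat.lt_or_ge i (j + 1) with h1 | h1
    · rw [an, List.take_append_of_le_length (by rw [an_length]; omega)]
      exact ih (by omega)
    · have : i = j + 1 := by omega
      subst this
      rw [List.take_of_length_le (by rw [an_length])]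

theorem an_get {n : ℕ} (T : List Clause) (r : Fin n → Bool) (i j : ℕ) (h : i < j)
    (h' : i < (an T r j).length) :
    (an T r j)[i] = coin r (ask n T (run n T (an T r i)) - 2) := by
  induction j with
  | zero => omega
  | succ j ih =>
    rcases Nat.lt_or_ge i j with h1 | h1
    · have h2 : (an T r (j + 1))[i]'h' = (an T r j)[i]'(by rw [an_length]; exact h1) := by
        simp only [an]
        rw [List.getElem_append_left (by rw [an_length]; exact h1)]
      rw [h2]
      exact ih h1 (by rw [an_length]; exact h1)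
    · have : i = j := by omega
      subst this
      simp only [an]
      rw [List.getElem_append_right (by rw [an_length])]
      simp [an_length]

theorem run_an {n : ℕ} (T : List Clause) (r : Fin n → Bool) (j : ℕ) :
    run n T (an T r j) = (stp T r)^[j] [] := by
  induction j with
  | zero => rfl
  | succ j ih =>
    rw [an, run_append, Function.iterate_succ_apply', ← ih]
    rfl

theorem run_good {n : ℕ} (T : List Clause) (r : Fin n → Bool) (a : List Bool)
    (h : ∀ k, ∀ hk : k < a.length, 2 ≤ ask n T (run n T (a.take k)) →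
      a[k] = coin r (ask n T (run n T (a.take k)) - 2)) : Good r (run n T a) := by
  have key : ∀ j, j ≤ a.length → Good r (run n T (a.take j)) := by
    intro j
    induction j with
    | zero =>
      intro _ p hp
      simp [run] at hp
    | succ j ih =>
      intro hj
      have h1 : a.take (j + 1) = a.take j ++ [a[j]'(by omega)] := by
        rw [List.take_append_getElem (by omega)]
      rw [h1, run_append]
      exact nx_good (ih (by omega)) (h j (by omega))
  have h2 := key a.length (le_refl _)
  rwa [List.take_length] at h2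

end Pool.Agent.Helper13.SXL
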